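import Pool.Agent.Lib.MP_f6c7cf_nt.FO.T1
import Pool.Agent.Lib.MP_f6c7cf_nt.FO.T3
import Pool.Agent.Lib.MP_f6c7cf_nt.FO.Main

/-!
The lower bound for the weight of the primes, for every weight whose transform is bounded by the
transform of a law.
-/

namespace Pool.Agent.Lib.MP_f6c7cf_nt.HC

open Finset Filter Topology Polynomial
open Pool.Agent.Lib.MP_9d27bc_nt.C (pr Rough)
open Pool.Agent.Lib.MP_4b1228_nt.GS (vm)
open Pool.Agent.Lib.MP_f6c7cf_nt.FO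
open scoped Classical ComplexConjugate

/-- the weight is controlled by the transform of the law -/
def Ex (t : ℕ) (F : ℝ[X]) (ω : ℕ → ℝ) : Prop :=
  (∀ n, 0 ≤ ω n) ∧ ∀ (ι : Type) (S : Finset ι) (v : ι → ℕ), (∀ i ∈ S, Odd (v i)) →
    |∑ i ∈ S, ω (v i) - D0 S v| ≤ ∑ χ ∈ nz t, ‖WW F χ‖ * ‖hat S v χ‖

/-- Sums of the first type. -/
def T1S : Prop :=
  ∃ C : ℝ, 0 < C ∧ ∀ k : ℕ, C ≤ 2 ^ k → ∀ A B : ℕ, ∀ᶠ z : ℝ in atTop,
    ∀ (ι : Type) (S : Finset ι) (v : ι → ℕ) (ω : ℕ → ℝ) (P₁ P₂ Y : ℝ), Mult S v B → 1 ≤ Y →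
      (∀ i ∈ S, Y ≤ v i ∧ (v i : ℝ) ≤ z ^ A ∧ Odd (v i)) → (z ^ (4 * k + 6)) ^ 7 ≤ P₁ → P₁ ≤ P₂ →
      P₂ ≤ z ^ A → (ω = w0 ∨ ∃ (t : ℕ) (F : ℝ[X]) (π : ℝ), 1 ≤ t ∧ Prob F ∧ Sp t F π ∧
        Row ((z ^ (4 * k + 6)) ^ 14) (qq t) π P₁ Y ∧ Ex t F ω) →
      |AA z ω S v P₁ P₂ - D0 S v * Real.log (P₂ / P₁) * VV z| ≤
        C / 2 ^ k * (D0 S v * Real.log (P₂ / P₁) * VV z) + 1 / z

/-- the weights of one law -/
def C1 (g γ : ℕ) (y : ℝ) (ω : ℕ → ℝ) : Prop :=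
  ω = w0 ∨ ∃ (t : ℕ) (F : ℝ[X]) (π : ℝ), 1 ≤ t ∧ Prob F ∧ Sp t F π ∧ (qq t : ℝ) ≤ y ^ g ∧
    qq t * π ≤ y ^ γ ∧ Ex t F ω ∧ Lin (qq t * (qq t * π)) ω

/-- the weights of products -/
def C2 (k l : ℕ) (H δ : ℝ) (g : ℕ) (y : ℝ) (ω : ℕ → ℝ) : Prop :=
  ω = w0 ∨ ∃ (t : ℕ) (F : Fin k → ℝ[X]), 1 ≤ t ∧ Ok k l H δ t F ∧ (qq t : ℝ) ≤ y ^ g ∧
    Ex t (∏ i, F i) ω ∧
    Lin (qq t * (qq t * 2 ^ (-(H * t * #(univ : Finset (Fin k)) / k)))) ω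

/-- Good cells. -/
def T3S : Prop :=
  ∃ c : ℕ, ∀ (k l : ℕ) (H δ : ℝ) (g A G N j₀ : ℕ), 0 ≤ H → H ≤ 2 → 0 ≤ δ → Spl k H g A N →
    (1 + δ) * g ≤ 2 * G → 1 ≤ j₀ → c * j₀ ≤ G → Asy (C2 k l H δ g) (Good A G) j₀ N

/-- Visible divisors. -/
def VisS : Prop :=
  ∃ C : ℝ, 0 < C ∧ ∀ k : ℕ, C ≤ 2 ^ k → ∀ (g γ A J₁ J₂ R j₀ : ℕ) (M : Multiset ℕ), 1 ≤ j₀ →
    J₁ ≤ J₂ → g ≤ 2 * γ → γ + 14 * (4 * k + 6) * j₀ + 2 ≤ A →
    g + γ + 14 * (4 * k + 6) * j₀ + 2 ≤ J₁ → M.sum + A ≤ J₁ →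
    AsyI (C1 g γ) (C / 2 ^ k) J₁ J₂ R j₀ M

/-- The lower bound for the weight of the primes. -/
def MainS : Prop :=
  ∀ l : ℕ, ∃ (h Δ : ℕ) (c : ℝ), 1 ≤ h ∧ 80 * Δ ≤ h ∧ 0 < c ∧ ∀ᶠ y : ℝ in atTop,
    ∀ (t : ℕ) (F : Fin 1000 → ℝ[X]) (ω : ℕ → ℝ), 1 ≤ t → Ok 1000 l (5809 / 10000) (1 / 10000) t F → (qq t : ℝ) ≤ y ^ (5840 * h) →
      Ex t (∏ i, F i) ω → Lin (qq t * (qq t * 2 ^ (-(5809 / 10000 * (t : ℝ) *
        #(univ : Finset (Fin 1000)) / (1000 : ℕ))))) ω →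
      c ≤ ∑ p ∈ PP y (10000 * h) (10000 * h + Δ), ω p

open T1 in
theorem t1 (hB : Bas) (h1 : TCSt) (h2 : LinSt) (h3 : ESt) : T1S := by
  obtain ⟨C, hC, h1⟩ := h1
  refine ⟨C, hC, fun k hk A B => ?_⟩
  filter_upwards [eventually_ge_atTop 2, (tw k).eventually (h3 A B), mass hB A B]
    with z hz ha hm ι S v ω P₁ P₂ Y a1 a2 a3 a4 a5 a6 a7
  have hzw := le_w hz k
  have hA := le_wA hz k A
  have hpow : z ^ (2 * (4 * k + 6)) = (z ^ (4 * k + 6)) ^ 2 := by rw [mul_comm, pow_mul]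
  have hw1 : 1 ≤ z ^ (4 * k + 6) := one_le_pow₀ (by linarith)
  have h1' := h1 k hk (iv P₁ P₂) (fun m => ∑ i ∈ S, ω (v i * m)) z
    (D0 S v * Real.log (P₂ / P₁)) (D0 S v / P₁ + 1 / (z ^ (4 * k + 6)) ^ 5) hz
  rw [hpow] at h1'
  generalize z ^ (4 * k + 6) = W at *
  have hWP : W ≤ P₁ := (le_self_pow₀ hw1 (by norm_num)).trans a4
  have P0 : 0 < P₁ := by linarith
  have hD0 := D0_nonneg S v
  have hω : ∀ n, 0 ≤ ω n := by
    rcases a7 with rfl | ⟨t, F, π, -, -, -, -, b5⟩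
    · intro n
      unfold w0
      positivity
    · exact b5.1
  have hL : 0 ≤ Real.log (P₂ / P₁) := Real.log_nonneg ((one_le_div P0).2 a5)
  have e2 := err hz hzw a4 (hm ι S v a1 fun i hi => (a3 i hi).2.1)
  have hAA : AA z ω S v P₁ P₂ = ∑ m ∈ iv P₁ P₂ with Rough z m, ∑ i ∈ S, ω (v i * m) := by
    unfold AA
    exact sum_comm
  rw [hAA]
  refine (h1' (fun n _ => sum_nonneg fun i _ => hω _) (mul_nonneg hD0 hL) (by positivity)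
    fun d hd hdW => ?_).trans (add_le_add le_rfl e2)
  have hm := model hB h2 S v hd P0 a5
  have d1 : 1 ≤ d := hd.pos
  have d1' : (1 : ℝ) ≤ d := by exact_mod_cast d1
  have hs : ∑ n ∈ iv P₁ P₂ with Odd n ∧ d ∣ n, ∑ i ∈ S, ω (v i * n) =
      ∑ w ∈ S ×ˢ {n ∈ iv P₁ P₂ | Odd n ∧ d ∣ n}, ω (v w.1 * w.2) := by
    rw [sum_product, sum_comm]
  rw [hs]
  rcases a7 with rfl | ⟨t, F, π, b1, b2, b3, b4, b5⟩
  · refine le_trans ?_ (le_add_of_nonneg_right (by positivity))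
    exact hm
  · have π0 : 0 ≤ π := by
      have := hB.sp_ge t F π b2 b3
      by_contra hneg
      have : (2 : ℝ) ^ t * π ≤ 0 :=
        mul_nonpos_of_nonneg_of_nonpos (by positivity) (le_of_lt (not_le.1 hneg))
      linarith
    have c1 := b5.2 (ι × ℕ) (S ×ˢ {n ∈ iv P₁ P₂ | Odd n ∧ d ∣ n}) (fun w => v w.1 * w.2)
      fun w hw => (a3 _ (mem_product.1 hw).1).2.2.mul (mem_filter.1 (mem_product.1 hw).2).2.1
    have c2 := ha ι S v t F π (P₁ / d) (P₂ / d) Y a1 a2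
      (fun i hi => ⟨(a3 i hi).1, (a3 i hi).2.1.trans hA⟩) b1 b2 b3
      ((one_le_div (by linarith)).2 (hdW.trans hWP))
      (div_le_div_of_nonneg_right a5 (by linarith))
      ((div_le_self (by linarith) d1').trans (a6.trans hA))
      (row hw1 d1' hdW (by positivity) π0 b4)
    have c3 : ∑ χ ∈ nz t, ‖WW F χ‖ *
        ‖hat (S ×ˢ {n ∈ iv P₁ P₂ | Odd n ∧ d ∣ n}) (fun w => v w.1 * w.2) χ‖ ≤
        ∑ χ ∈ nz t, ‖WW F χ‖ * ‖hat S v χ‖ * ‖sm χ (P₁ / d) (P₂ / d)‖ := by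
      refine sum_le_sum fun χ _ => ?_
      have e1 := hB.hat_mul ι ℕ S v {n ∈ iv P₁ P₂ | Odd n ∧ d ∣ n} id t χ
      simp only [id] at e1
      rw [e1, norm_mul, mul_assoc]
      gcongr
      exact hB.hat_dvd t d χ P₁ P₂ b1 d1 P0.le (by linarith)
    have c4 := (c1.trans c3).trans c2
    refine (abs_sub_le _ _ _).trans ((add_le_add c4 hm).trans (le_of_eq (add_comm _ _)))

theorem visS (hX : Box) (h1 : T1S) : VisS := by
  obtain ⟨C, hC, h1⟩ := h1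
  refine ⟨C, hC, fun k hk g γ A J₁ J₂ R j₀ M hj hJ hg hA hJ₁ hM ε hε => ?_⟩
  obtain ⟨n, hn⟩ : ∃ n, n + M.sum + 1 = J₁ := ⟨J₁ - M.sum - 1, by omega⟩
  obtain ⟨m, hm⟩ : ∃ m, m + M.sum = J₂ + R := ⟨J₂ + R - M.sum, by omega⟩
  obtain ⟨e, he⟩ : ∃ e, e = (4 * k + 6) * j₀ := ⟨_, rfl⟩
  rw [mul_assoc, ← he] at hA hJ₁
  filter_upwards [eventually_ge_atTop 2, eventually_ge_atTop (1 / ε),
    (tendsto_pow_atTop (α := ℝ) (by omega : j₀ ≠ 0)).eventually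
      (h1 k hk (J₂ + R + 2 * J₁) 1)] with y hy hy' h ω hω
  have y1 : 1 ≤ y := by linarith
  have y0 : 0 < y := by linarith
  have pw : ∀ {a b : ℕ}, a ≤ b → y ^ a ≤ y ^ b := fun h => pow_le_pow_right₀ y1 h
  have yz : y ≤ y ^ j₀ := by simpa using pw hj
  have eA : pA J₁ y M.sum = y ^ n := by
    rw [pA, ← Real.rpow_natCast, ← hn]
    congr 1
    push_cast
    ring
  have eB : pB J₂ y R M.sum = y ^ m := by
    have : (m : ℝ) + M.sum = J₂ + R := by exact_mod_cast hm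
    rw [pB, ← Real.rpow_natCast]
    congr 1
    linarith
  have big : ∀ {a : ℕ}, a ≤ J₂ + R + 2 * J₁ → y ^ a ≤ (y ^ j₀) ^ (J₂ + R + 2 * J₁) := fun h => by
    rw [← pow_mul]
    exact pw (h.trans (Nat.le_mul_of_pos_left _ hj))
  have eW : ∀ c : ℕ, ((y ^ j₀) ^ (4 * k + 6)) ^ c = y ^ (c * e) := fun c => by
    rw [← pow_mul, ← pow_mul, he]
    congr 1
    ring
  rw [mT, eA, eB]
  refine (h _ _ _ ω _ _ (y ^ M.sum) (fun a => ?_) (one_le_pow₀ y1) (fun S hS => ?_) ?_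
    (pw (by omega)) (big (by omega)) ?_).trans (add_le_add le_rfl ?_)
  · refine le_trans (card_le_card fun S hS => ?_) (hX.mult_set (PP y j₀ (J₂ + 1))
      (fun l hl => ((hX.mem_PP _ _ _ _ y0.le).1 hl).1) a)
    rw [mem_filter] at hS ⊢
    exact ⟨(mem_filter.1 hS.1).1, hS.2⟩
  · obtain ⟨s1, s2⟩ := mem_filter.1 hS
    obtain ⟨b1, b2, b3, b4⟩ := hX.nm_set y j₀ (J₂ + 1) S (by linarith) (mem_powerset.1 s1)
    rw [s2] at b1 b2 b3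
    have := Nat.le_mul_of_pos_left #S hj
    exact ⟨b1, b2.trans (big (by omega)), hX.odd _ _ (hy.trans yz) b4⟩
  · rw [eW]
    exact pw (by omega)
  · refine hω.imp id fun ⟨t, F, π, a1, a2, a3, a4, a5, a6⟩ => ⟨t, F, π, a1, a2, a3, ?_, a6.1⟩
    have q0 : (0 : ℝ) ≤ qq t := Nat.cast_nonneg _
    rw [eW]
    refine ⟨?_, ?_, ?_, ?_⟩
    · calc y ^ (14 * e) * (qq t : ℝ) ≤ y ^ (14 * e) * y ^ g := by gcongr
        _ ≤ (y ^ n) ^ 2 := by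
          rw [← pow_add, ← pow_mul]
          exact pw (by omega)
    · calc y ^ (14 * e) * (qq t * π) ≤ y ^ (14 * e) * y ^ γ := by gcongr
        _ ≤ y ^ n := by
          rw [← pow_add]
          exact pw (by omega)
    · calc y ^ (14 * e) * (qq t : ℝ) ^ 2 ≤ y ^ (14 * e) * (y ^ g) ^ 2 := by gcongr
        _ ≤ (y ^ n) ^ 2 * y ^ M.sum := by
          rw [← pow_mul, ← pow_mul, ← pow_add, ← pow_add]
          exact pw (by omega)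
    · calc y ^ (14 * e) * (qq t * (qq t * π)) ≤ y ^ (14 * e) * (qq t * y ^ γ) := by gcongr
        _ ≤ y ^ (14 * e) * (y ^ g * y ^ γ) := by gcongr
        _ ≤ y ^ n * y ^ M.sum := by
          rw [← pow_add, ← pow_add, ← pow_add]
          exact pw (by omega)
  · rw [div_le_iff₀ (by positivity), mul_comm, ← div_le_iff₀ hε]
    exact hy'.trans yz

open T3 in
theorem t3 (hB : Bas) (hX : Box) (h1 : MBSt) (h2 : HBSt) (h3 : PBSt) : T3S := by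
  obtain ⟨c, h2⟩ := h2
  refine ⟨c, ?_⟩
  intro k l H δ g A G N j₀ hH0 hH2 hδ hS hG hj hc r jv ε hjv hN hgood hε
  obtain ⟨⟨D, D', hD, hA1, hA2⟩, hgood⟩ := hgood
  obtain ⟨I, I', s1, s2, s3, hprod1⟩ := two_idx jv D D' hD
  obtain ⟨Ia, Ib, Ic, ⟨i₀, hi₀⟩, hIa, hIb, hprod2⟩ := MP_4b1228_nt.GS.T3.good_idx jv G hgood
  obtain ⟨n, n', hk, hn, hn'⟩ := hS D.sum D'.sum hA1 hA2 (s3 ▸ hN)
  have hg0 : (0 : ℝ) ≤ g := Nat.cast_nonneg g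
  have hg3 : g ≤ 3 * G := by
    have : (g : ℝ) ≤ 3 * G := by nlinarith [mul_nonneg hδ hg0, Nat.cast_nonneg (α := ℝ) G]
    exact_mod_cast this
  obtain ⟨K₁, m1⟩ := h2 r g j₀ G jv Ia hj hjv hc hg3 hIa
  obtain ⟨K₂, m2⟩ := h2 r g j₀ G jv Ib hj hjv hc hg3 hIb
  obtain ⟨C₀, hC₀⟩ := hX.D0_box
  obtain ⟨W, hW⟩ : ∃ W : ℝ, W = (C₀ : ℝ) ^ #(Ic.erase i₀) := ⟨_, rfl⟩
  have hW0 : 0 ≤ W := by rw [hW]; positivity
  have hex : ∀ i : Fin k, ∃ T ⊆ univ.erase i, #T = n := fun i =>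
    exists_subset_card_eq (by
      rw [card_erase_of_mem (mem_univ i), card_univ, Fintype.card_fin]; omega)
  choose T hT hTc using hex
  have hTc' : ∀ i, #(univ.erase i \ T i) = n' := fun i => by
    rw [card_sdiff_of_subset (hT i), card_erase_of_mem (mem_univ i), card_univ, Fintype.card_fin,
      hTc]
    omega
  obtain ⟨n₀, hn₀⟩ : ∃ n₀ : ℕ, n₀ = 4 * (2 * k * l + 1) * g + 1 := ⟨_, rfl⟩
  have he : (0 : ℝ) < (n₀ : ℝ)⁻¹ := by rw [hn₀]; positivity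
  have hpos : 0 < ε / 2 / (W * (|K₁| + |K₂|) + 1) := by positivity
  have hj1 : 1 ≤ jv i₀ := hj.trans (hjv i₀)
  filter_upwards [m1, m2, h3 (jv i₀) g _ hj1 hpos, h1 g g (fun _ => jv i₀) univ _ he,
    h1 r g jv I _ he, h1 r g jv I' _ he, h1 r g jv Ia _ he, h1 r g jv Ib _ he,
    eventually_ge_atTop (2 : ℝ),
    (tendsto_rpow_atTop he).eventually_ge_atTop ((2 * k + 2 * W) / (ε / 2))]
    with y a1 a2 a3 bU bD bD' bA bB hy hbig ω hω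
  rcases hω with rfl | ⟨t, F, ht, ⟨hF, hSp, hSl⟩, hq, hE, -⟩
  · simpa using hε.le
  have hy1 : 1 < y := by linarith
  have hxy : (y ^ (n₀ : ℝ)⁻¹) ^ n₀ = y := Real.rpow_inv_natCast_pow (by linarith) (by omega)
  have hx : 1 ≤ y ^ (n₀ : ℝ)⁻¹ := Real.one_le_rpow hy1.le he.le
  generalize y ^ (n₀ : ℝ)⁻¹ = x at bU bD bD' bA bB hbig hxy hx
  have hx0 : 0 < x := by linarith
  have hFF : Prob (∏ i, F i) := hB.prob_prod _ _ _ fun i _ => hF i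
  have hodd : ∀ f ∈ (Fintype.piFinset fun i => Bx y (jv i)), Odd (∏ i, f i) := by
    intro f hf
    refine hX.odd (y ^ j₀) _ (hy.trans (le_self_pow₀ hy1.le (by omega))) ?_
    exact (hX.nm_tup (Fin r) y j₀ jv f hy1 fun k => ⟨hjv k, Fintype.mem_piFinset.1 hf k⟩).2.2
  have h6 := hE.2 _ (Fintype.piFinset fun i => Bx y (jv i)) (fun f => ∏ i, f i) hodd
  have e1 : cell y w0 jv = D0 (Fintype.piFinset fun i => Bx y (jv i)) (fun f => ∏ i, f i) := rfl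
  rw [e1]
  refine h6.trans ?_
  obtain ⟨U, hU⟩ : ∃ U : Finset (Ch t),
    U = {χ ∈ nz t | 1 / x ^ (2 * (2 * k * l + 1)) ≤ ‖hat (Bx y (jv i₀)) id χ‖} := ⟨_, rfl⟩
  have hUc : (#U : ℝ) ≤ y := by
    rw [← hxy, hn₀]
    refine cardU U (fun χ => ‖hat (Bx y (jv i₀)) id χ‖) x _ g hx
      (fun χ hχ => by rw [hU] at hχ; exact (mem_filter.1 hχ).2) ?_
    have h7 := bU t 1 1 ht hB.prob_one (hB.sp_one t 1 hB.prob_one) hq (by
      rw [mul_one]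
      refine hq.trans (pow_le_pow_right₀ hy1.le ?_)
      rw [sum_const, card_univ, Fintype.card_fin, smul_eq_mul]
      exact Nat.le_mul_of_pos_right _ hj1)
    simpa [hB.WW_one, hp] using h7
  have hk0 : (0 : ℝ) < k := by exact_mod_cast (by omega : 0 < k)
  have hrow : ∀ (m E : ℕ) (S : Finset (Fin k)), #S = m → m ≤ k →
      g * (1 - H * m / (2 * k)) ≤ E → (qq t : ℝ) * 2 ^ (-(H * t * #S / k)) ≤ y ^ E := by
    intro m E S hS hm h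
    have hm' : (m : ℝ) ≤ k := by exact_mod_cast hm
    refine pw t g E y _ _ hy1.le ?_ hq h ?_
    · rw [sub_nonneg, div_le_one (by positivity)]
      nlinarith [Nat.cast_nonneg (α := ℝ) m]
    · rw [hS]
      field_simp
      ring
  have hmaj : ∀ E : ℕ, G ≤ E → (qq t : ℝ) * 2 ^ ((δ - 1) * t) ≤ y ^ E := by
    intro E hE
    have hE' : (G : ℝ) ≤ E := by exact_mod_cast hE
    exact pw t g E y ((1 + δ) / 2) _ hy1.le (by positivity) hq (by linarith) (by ring)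
  have c1 := fun i => bD t _ _ ht (hB.prob_prod _ (T i) F fun i _ => hF i) (hSp (T i)) hq
    (hrow n _ _ (hTc i) (by omega) (s1 ▸ hn))
  have c2 := fun i => bD' t _ _ ht (hB.prob_prod _ (univ.erase i \ T i) F fun i _ => hF i)
    (hSp _) hq (hrow n' _ _ (hTc' i) (by omega) (s2 ▸ hn'))
  have c3 := bA t _ _ ht (hB.prob_pow _ l hFF) hSl hq (hmaj _ hIa)
  have c4 := bB t _ _ ht (hB.prob_pow _ l hFF) hSl hq (hmaj _ hIb)
  have c5 := (a1 t U ht hq hUc).trans (le_abs_self _)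
  have c6 := (a2 t U ht hq hUc).trans (le_abs_self _)
  have e : ∀ χ ∈ nz t, ‖WW (∏ i, F i) χ‖ *
      ‖hat (Fintype.piFinset fun i => Bx y (jv i)) (fun f => ∏ i, f i) χ‖ ≤
      (if 1 / x ^ (2 * (2 * k * l + 1)) ≤ ‖hat (Bx y (jv i₀)) id χ‖ then
        ε / 2 / (W * (|K₁| + |K₂|) + 1) * W * (‖hp y jv Ia χ‖ ^ 2 + ‖hp y jv Ib χ‖ ^ 2) else 0) +
      (∑ i, 1 / x ^ 2 * (‖WW (∏ j ∈ T i, F j) χ‖ ^ 2 * ‖hp y jv I χ‖ ^ 2 +
        ‖WW (∏ j ∈ univ.erase i \ T i, F j) χ‖ ^ 2 * ‖hp y jv I' χ‖ ^ 2)) +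
      W / x ^ 2 * (‖WW ((∏ i, F i) ^ l) χ‖ ^ 2 * ‖hp y jv Ia χ‖ ^ 2 +
        ‖WW ((∏ i, F i) ^ l) χ‖ ^ 2 * ‖hp y jv Ib χ‖ ^ 2) := by
    intro χ hχ
    have h5 := hB.hat_pi (Fin r) ℕ (fun k => Bx y (jv k)) id t χ
    simp only [id] at h5
    have h7 := hB.WW_le t _ χ hFF
    rw [hB.WW_prod, norm_prod] at h7
    rw [h5]
    simp only [hB.WW_pow, hB.WW_prod, norm_pow, MP_f6c7cf_nt.FO.hp, norm_prod]
    refine pt l (fun i => ‖WW (F i) χ‖) (fun _ => norm_nonneg _) h7 T hT x _ W _ _ _ _ _ _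
      (∏ i ∈ Ic.erase i₀, ‖hat (Bx y (jv i)) id χ‖) hx
      (prod_nonneg fun _ _ => norm_nonneg _) (prod_nonneg fun _ _ => norm_nonneg _)
      (prod_nonneg fun _ _ => norm_nonneg _) (prod_nonneg fun _ _ => norm_nonneg _)
      (norm_nonneg _) (prod_nonneg fun _ _ => norm_nonneg _) (hprod1 _) ?_
      (a3 t χ (mem_erase.1 hχ).1 hq) ?_
    · rw [hprod2, ← mul_prod_erase Ic _ hi₀]
    · rw [hW, ← prod_const]
      refine prod_le_prod (fun _ _ => norm_nonneg _) fun i _ => ?_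
      exact (hB.hat_le _ _ _ _ _).trans (hC₀ y _ hy (hj.trans (hjv i)))
  refine (sum_le_sum e).trans ?_
  rw [sum_add_distrib, sum_add_distrib, ← sum_filter, ← hU, sum_comm, ← mul_sum, ← mul_sum,
    sum_add_distrib, sum_add_distrib]
  have d1 : ε / 2 / (W * (|K₁| + |K₂|) + 1) * W *
      (∑ χ ∈ U, ‖hp y jv Ia χ‖ ^ 2 + ∑ χ ∈ U, ‖hp y jv Ib χ‖ ^ 2) ≤ ε / 2 := by
    calc _ ≤ ε / 2 / (W * (|K₁| + |K₂|) + 1) * W * (|K₁| + |K₂|) := by gcongr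
      _ = ε / 2 * (W * (|K₁| + |K₂|) / (W * (|K₁| + |K₂|) + 1)) := by ring
      _ ≤ ε / 2 * 1 := by
        gcongr
        rw [div_le_one (by positivity)]
        linarith
      _ = ε / 2 := mul_one _
  have d2 : ∑ i : Fin k, ∑ χ ∈ nz t, 1 / x ^ 2 *
      (‖WW (∏ j ∈ T i, F j) χ‖ ^ 2 * ‖hp y jv I χ‖ ^ 2 +
        ‖WW (∏ j ∈ univ.erase i \ T i, F j) χ‖ ^ 2 * ‖hp y jv I' χ‖ ^ 2) ≤
      ∑ _i : Fin k, 1 / x ^ 2 * (x + x) := by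
    refine sum_le_sum fun i _ => ?_
    rw [← mul_sum, sum_add_distrib]
    have f1 := (sum_nz _ fun _ => by positivity).trans (c1 i)
    have f2 := (sum_nz _ fun _ => by positivity).trans (c2 i)
    gcongr
  have d3 : W / x ^ 2 * (∑ χ ∈ nz t, ‖WW ((∏ i, F i) ^ l) χ‖ ^ 2 * ‖hp y jv Ia χ‖ ^ 2 +
      ∑ χ ∈ nz t, ‖WW ((∏ i, F i) ^ l) χ‖ ^ 2 * ‖hp y jv Ib χ‖ ^ 2) ≤ W / x ^ 2 * (x + x) := by
    have f1 := (sum_nz _ fun _ => by positivity).trans c3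
    have f2 := (sum_nz _ fun _ => by positivity).trans c4
    gcongr
  rw [sum_const, card_univ, Fintype.card_fin, nsmul_eq_mul] at d2
  have d4 : (k : ℝ) * (1 / x ^ 2 * (x + x)) + W / x ^ 2 * (x + x) ≤ ε / 2 := by
    have e2 : (k : ℝ) * (1 / x ^ 2 * (x + x)) + W / x ^ 2 * (x + x) = (2 * k + 2 * W) / x := by
      field_simp
      ring
    rw [e2, div_le_iff₀ hx0]
    rw [div_le_iff₀ (by positivity)] at hbig
    linarith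
  linarith

open Main in
lemma c1_lin (hB : Bas) (hL : LinSt) {g γ : ℕ} {y : ℝ} {ω : ℕ → ℝ} (hy : 1 ≤ y)
    (h : C1 g γ y ω) : Lin (y ^ (g + γ)) ω := by
  rcases h with rfl | ⟨t, F, π, a, b, c, d, e, -, f⟩
  · exact lin_mono hL.2.2.1 (one_le_pow₀ hy)
  · refine lin_mono f ?_
    have h1 := hB.sp_ge t F π b c
    have h2 : (0 : ℝ) < 2 ^ t := by positivity
    have h3 : 0 ≤ π := by
      by_contra h
      nlinarith [not_le.1 h]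
    rw [pow_add]
    have h4 : 0 ≤ (qq t : ℝ) * π := by positivity
    have h5 : 0 ≤ y ^ g := by positivity
    exact mul_le_mul d e h4 h5

lemma c2_c1 (hB : Bas) {l h : ℕ} {δ y : ℝ} {ω : ℕ → ℝ} (hy : 1 ≤ y)
    (hc : C2 1000 l (5809 / 10000) δ (5840 * h) y ω) : C1 (5840 * h) (4144 * h) y ω := by
  rcases hc with rfl | ⟨t, F, a, ⟨b, c, -⟩, d, f⟩
  · exact Or.inl rfl
  · refine Or.inr ⟨t, ∏ i, F i, _, a, hB.prob_prod _ _ _ fun i _ => b i, c univ, d, ?_, f⟩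
    have e1 : (qq t : ℝ) = (2 : ℝ) ^ (2 * (t : ℝ)) := by
      rw [show 2 * (t : ℝ) = ((2 * t : ℕ) : ℝ) by push_cast; ring, Real.rpow_natCast]
      push_cast
      rfl
    have e2 : (qq t : ℝ) * (2 : ℝ) ^ (-(5809 / 10000 * (t : ℝ) *
        (#(univ : Finset (Fin 1000)) : ℝ) / ((1000 : ℕ) : ℝ))) =
        (qq t : ℝ) ^ (14191 / 20000 : ℝ) := by
      rw [e1, ← Real.rpow_add two_pos, ← Real.rpow_mul zero_le_two, card_univ, Fintype.card_fin]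
      congr 1
      push_cast
      ring
    rw [e2]
    have h0 : (0 : ℝ) ≤ h := Nat.cast_nonneg h
    calc (qq t : ℝ) ^ (14191 / 20000 : ℝ) ≤ (y ^ (5840 * h)) ^ (14191 / 20000 : ℝ) :=
          Real.rpow_le_rpow (Nat.cast_nonneg _) d (by norm_num)
      _ = y ^ (((5840 * h : ℕ) : ℝ) * (14191 / 20000)) := by
          rw [Real.rpow_mul (by linarith), Real.rpow_natCast]
      _ ≤ y ^ ((4144 * h : ℕ) : ℝ) := by
          apply Real.rpow_le_rpow_of_exponent_le hy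
          push_cast
          linarith
      _ = y ^ (4144 * h) := Real.rpow_natCast _ _

open Main Pool.Agent.Lib.MP_4b1228_nt in
theorem main (hB : Bas) (hX : Box) (hL : LinSt) (h1 : CoreG) (h2 : VisS) (h3 : T3S)
    (h4 : CertSt) : MainS := by
  intro l
  obtain ⟨c₁, C₁, hC₁, h1⟩ := h1
  obtain ⟨CV, hCV, h2⟩ := h2
  obtain ⟨c₃, h3⟩ := h3
  obtain ⟨c, h₀, D, hc, h4⟩ := h4
  obtain ⟨k, hk⟩ := GS.Main.ex_k (10000 * 56) (10000 * (87 + c₁ + c₃ + D) + 1)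
    (32 * (C₁ * CV) / c + CV) (by positivity)
  obtain ⟨R', hR'⟩ : ∃ R' : ℕ, R' = 14 * (4 * k + 6) + 3 + c₁ + c₃ + D := ⟨_, rfl⟩
  obtain ⟨R, hR⟩ : ∃ R : ℕ, R = 10000 * R' + 1 := ⟨_, rfl⟩
  have hkR : 10000 * 56 * k + (10000 * (87 + c₁ + c₃ + D) + 1) = R := by
    rw [hR, hR']; ring
  rw [hkR] at hk
  have hR1 : (1 : ℝ) ≤ R := by exact_mod_cast (by omega : 1 ≤ R)
  have hR2 : (1 : ℝ) ≤ (R : ℝ) ^ 2 := one_le_pow₀ hR1
  have hq1 : 0 ≤ 32 * (C₁ * CV) / c := by positivity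
  have hka : 32 * (C₁ * CV) / c * (R : ℝ) ^ 2 ≤ 2 ^ k := by nlinarith
  have hkb : CV ≤ 2 ^ k := by nlinarith
  obtain ⟨Δ, hΔ1, hΔ2⟩ : ∃ Δ : ℕ, R ≤ Δ ∧ 16 * C₁ * 2 ^ R * (R : ℝ) ^ 2 / c ≤ Δ := by
    refine ⟨⌈16 * C₁ * 2 ^ R * (R : ℝ) ^ 2 / c⌉₊ + R, by omega, ?_⟩
    push_cast
    linarith [Nat.le_ceil (16 * C₁ * 2 ^ R * (R : ℝ) ^ 2 / c)]
  obtain ⟨j₀, hj1, hj2, hj3, hj4⟩ : ∃ j₀ : ℕ, Δ + 2 * R + 1 ≤ j₀ ∧ h₀ ≤ j₀ ∧ 2 / c ≤ j₀ ∧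
      64 * 1 * ((Δ : ℝ) + 1) * R / c ≤ j₀ := by
    refine ⟨Δ + 2 * R + 1 + h₀ + ⌈2 / c⌉₊ + ⌈64 * 1 * ((Δ : ℝ) + 1) * R / c⌉₊,
      by omega, by omega, ?_, ?_⟩
    · exact (Nat.le_ceil _).trans (by exact_mod_cast (by omega))
    · exact (Nat.le_ceil _).trans (by exact_mod_cast (by omega))
  have hj0 : 1 ≤ j₀ := by omega
  have hj0' : (1 : ℝ) ≤ j₀ := by exact_mod_cast hj0
  obtain ⟨h, hh⟩ : ∃ h : ℕ, h = R' * j₀ := ⟨_, rfl⟩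
  have hsj : h = 14 * (4 * k + 6) * j₀ + 3 * j₀ + c₁ * j₀ + c₃ * j₀ + D * j₀ := by
    rw [hh, hR']; ring
  have hRj : R * j₀ = 10000 * h + j₀ := by rw [hR, hh]; ring
  have hD : D * Δ ≤ D * j₀ := Nat.mul_le_mul_left _ (by omega)
  obtain ⟨yy, hW, hS, hLs⟩ := h4 h Δ (by omega) (by omega)
  have hCl : Cls (C2 1000 l (5809 / 10000) (1 / 10000) (5840 * h)) (5840 * h + 4144 * h) :=
    ⟨fun _ => Or.inl rfl, fun y ω hy hω => HC.c1_lin hB hL hy (HC.c2_c1 hB hy hω)⟩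
  set p := sv h Δ yy with hp
  have eJ₁ : p.J₁ = 10000 * h := rfl
  have eJ₂ : p.J₂ = 10000 * h + Δ := rfl
  have hV : p.Vis (C2 1000 l (5809 / 10000) (1 / 10000) (5840 * h)) (CV / 2 ^ k) R j₀ := by
    intro M hM ε hε
    filter_upwards [h2 k hkb (5840 * h) (4144 * h) (4150 * h) p.J₁ p.J₂ R j₀ M hj0 (by omega)
      (by omega) (by omega) (by omega) (hS M hM) ε hε, eventually_ge_atTop (1 : ℝ)]
      with y a hy ω hω
    exact a ω (HC.c2_c1 hB hy hω)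
  have hA : Asy (C2 1000 l (5809 / 10000) (1 / 10000) (5840 * h)) p.G j₀ p.J₁ := by
    refine h3 1000 l _ _ _ (4150 * h) (2923 * h) (10000 * h) j₀ (by norm_num) (by norm_num)
      (by norm_num) (spl (by omega)) ?_ hj0 (by omega)
    have : (0 : ℝ) ≤ h := Nat.cast_nonneg h
    push_cast
    linarith
  set m : ℝ := ((Δ : ℝ) + 1) * (c / (2 * ((R : ℝ) * j₀))) with hm
  have hm0 : 0 < m := by positivity
  have k1 := h1 _ p (CV / 2 ^ k) (m / 8) j₀ R _ hCl hW (by positivity) (by positivity) hj0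
    (by omega) (by omega) (by omega) hV hA
  have k4 := GS.Main.low c hc (10000 * h) Δ (R * j₀) (fun J => p.ls j₀ (p.J₂ + 1) R J)
    (hj3.trans (by exact_mod_cast (by omega))) (by omega)
    (fun J ha hb => hLs J j₀ (p.J₂ + 1) R ha hb hj0)
  have hΔ1' : (R : ℝ) ≤ Δ := by exact_mod_cast hΔ1
  have hU : 0 < (2 : ℝ) ^ R / CV := by positivity
  obtain ⟨e1, e2, -⟩ := GS.Main.errs c (C₁ * CV) 1 R Δ j₀ (2 ^ k) (2 ^ R / CV) hc (by positivity)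
    one_pos hR1 (by linarith) (by positivity) hU hΔ1' hka
    (le_trans (le_of_eq (by field_simp)) hΔ2) hj4
  have hk0 : 14 * 6 * j₀ ≤ 14 * (4 * k + 6) * j₀ := Nat.mul_le_mul_right _ (by omega)
  refine ⟨h, Δ + 1, m / 4, by omega, by omega, by positivity, ?_⟩
  filter_upwards [k1, eventually_ge_atTop (1 : ℝ)] with y a1 hy t F ω ht hF hq hE hLi
  have b1 := a1 _ (Or.inr ⟨t, F, ht, hF, hq, hE, hLi⟩)
  have y1 : (p.J₂ : ℝ) - p.J₁ = Δ := by rw [eJ₁, eJ₂]; push_cast; ring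
  rw [y1] at b1
  have k4' : m ≤ ∑ J ∈ Icc p.J₁ p.J₂, (1 / ((J : ℝ) + 1) - p.ls j₀ (p.J₂ + 1) R J) := by
    rw [hm]
    have := k4
    rw [Nat.cast_mul] at this
    exact this
  have f1 : C₁ * (CV / 2 ^ k) * R * ((Δ : ℝ) + R + 2) / j₀ =
      C₁ * CV * R * (Δ + R + 2) / (2 ^ k * j₀) := by field_simp
  have f2 : C₁ * CV * (2 ^ R / CV) * R / j₀ = C₁ * 2 ^ R * R / j₀ := by field_simp
  rw [f1] at b1
  rw [f2] at e2
  have f3 : ∑ π ∈ PP y p.J₁ (p.J₂ + 1), ω π =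
      ∑ π ∈ PP y (10000 * h) (10000 * h + (Δ + 1)), ω π := rfl
  linarith

end Pool.Agent.Lib.MP_f6c7cf_nt.HC
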