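import Pool.Agent.Lib.MP_f6c7cf_nt.HC.Wt

/-!
Laws of digits close to a given string.
-/

namespace Pool.Agent.Lib.MP_f6c7cf_nt.HC

open Finset Polynomial
open Pool.Agent.Lib.MP_f6c7cf_nt.FO
open Pool.Agent.Lib.MP_f6c7cf_nt.FO.Sp0 (cm cl Law)
open scoped Classical

noncomputable section

/-- the number of different digits -/
def hd (x w : ℕ) : ℕ := s2 (x ^^^ w)

theorem xor_place {s a a' : ℕ} (h : a < 2 ^ s) (h' : a' < 2 ^ s) (b b' : ℕ) :
    (a + 2 ^ s * b) ^^^ (a' + 2 ^ s * b') = (a ^^^ a') + 2 ^ s * (b ^^^ b') := by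
  refine Nat.eq_of_testBit_eq fun i => ?_
  rw [Nat.testBit_xor, add_comm a, add_comm a', add_comm (a ^^^ a'),
    Nat.testBit_two_pow_mul_add _ h, Nat.testBit_two_pow_mul_add _ h',
    Nat.testBit_two_pow_mul_add _ (Nat.xor_lt_two_pow h h')]
  split_ifs <;> rw [Nat.testBit_xor]

theorem hd_place {s a a' : ℕ} (h : a < 2 ^ s) (h' : a' < 2 ^ s) (b b' : ℕ) :
    hd (a + 2 ^ s * b) (a' + 2 ^ s * b') = hd a a' + hd b b' := by
  rw [hd, xor_place h h', BasP.s2_add _ _ _ (Nat.xor_lt_two_pow h h'), hd, hd]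

theorem s2_le (s : ℕ) {a : ℕ} (h : a < 2 ^ s) : s2 a ≤ s := by
  induction s generalizing a with
  | zero =>
    obtain rfl : a = 0 := by omega
    simp [s2]
  | succ s ih =>
    have h2 : a % 2 < 2 := Nat.mod_lt _ two_pos
    have e := BasP.s2_step (a % 2) (a / 2) h2
    rw [Nat.mod_add_div] at e
    have := ih (a := a / 2) (by rw [pow_succ] at h; omega)
    omega

theorem hd_low {e : ℕ} (he : e < 2) (c : ℕ) : hd (e + 2 * (c / 2)) c ≤ 1 := by
  have h := hd_place (s := 1) (a := e) (a' := c % 2) he (Nat.mod_lt _ two_pos) (c / 2) (c / 2)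
  rw [pow_one, Nat.mod_add_div] at h
  have h2 : hd e (c % 2) ≤ 1 :=
    s2_le 1 (Nat.xor_lt_two_pow (n := 1) he (Nat.mod_lt _ two_pos))
  have h3 : hd (c / 2) (c / 2) = 0 := by simp [hd, s2]
  omega

theorem card_bits (n x : ℕ) : #{i ∈ range n | x.testBit i = true} ≤ s2 x := by
  induction n generalizing x with
  | zero => simp
  | succ n ih =>
    have h2 : x % 2 < 2 := Nat.mod_lt _ two_pos
    have e := BasP.s2_step (x % 2) (x / 2) h2
    rw [Nat.mod_add_div] at e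
    have := ih (x / 2)
    rw [card_filter] at this ⊢
    rw [sum_range_succ', e]
    simp only [Nat.testBit_succ, Nat.testBit_zero, decide_eq_true_eq]
    split_ifs <;> omega

/-- the uniform law on a set -/
def un (A : Finset ℕ) : ℝ[X] := ∑ c ∈ A, monomial c (1 / (#A : ℝ))

theorem un_coeff (A : Finset ℕ) (c : ℕ) : (un A).coeff c = if c ∈ A then 1 / (#A : ℝ) else 0 := by
  simp only [un, finsetSum_coeff, coeff_monomial, sum_ite_eq']

theorem un_law {A : Finset ℕ} (h : A.Nonempty) : Law (un A) := by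
  refine ⟨fun n => ?_, ?_⟩
  · rw [un_coeff]
    split_ifs <;> positivity
  · have : (0 : ℝ) < #A := by exact_mod_cast h.card_pos
    simp only [un, eval_finsetSum, eval_monomial, one_pow, mul_one, sum_const, nsmul_eq_mul]
    field_simp

theorem un_supp {A : Finset ℕ} {c : ℕ} (h : c ∈ (un A).support) : c ∈ A := by
  by_contra n
  rw [mem_support_iff, un_coeff, if_neg n] at h
  exact h rfl

theorem un_cm {A : Finset ℕ} {m : ℕ} (h : ∀ c ∈ A, c < m) (a : ℤ) :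
    cm m (un A) a ≤ 1 / (#A : ℝ) := by
  have a1 : #((un A).support.filter fun y : ℕ => (m : ℤ) ∣ (y : ℤ) - a) ≤ 1 := by
    refine card_le_one.2 fun y hy z hz => ?_
    have e := dvd_sub (mem_filter.1 hy).2 (mem_filter.1 hz).2
    rw [sub_sub_sub_cancel_right, ← Nat.modEq_iff_dvd] at e
    exact (Nat.ModEq.eq_of_lt_of_lt e (h _ (un_supp (mem_filter.1 hz).1))
      (h _ (un_supp (mem_filter.1 hy).1))).symm
  refine (sum_le_card_nsmul _ _ (1 / (#A : ℝ)) fun y _ => ?_).trans ?_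
  · rw [un_coeff]
    split_ifs
    · exact le_rfl
    · positivity
  · rw [nsmul_eq_mul]
    exact mul_le_of_le_one_left (by positivity) (by exact_mod_cast a1)

/-- a ball -/
def ball (b κ c : ℕ) : Finset ℕ := {x ∈ range (2 ^ b) | hd x c ≤ κ}

theorem ball_card (b κ : ℕ) {c : ℕ} (hc : c < 2 ^ b) : b.choose κ ≤ #(ball b κ c) := by
  rw [← Sp0.card_s2]
  refine card_le_card_of_injOn (fun x => x ^^^ c) (fun x hx => ?_) fun x _ y _ e => ?_
  · obtain ⟨h1, h2⟩ := mem_filter.1 (mem_coe.1 hx)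
    refine mem_coe.2 (mem_filter.2 ⟨mem_range.2 (Nat.xor_lt_two_pow (mem_range.1 h1) hc), ?_⟩)
    rw [hd, Nat.xor_xor_cancel_right]
    exact le_of_eq h2
  · exact Nat.xor_left_injective e

theorem ball_low {b κ c e : ℕ} (hb : 1 ≤ b) (hκ : 1 ≤ κ) (hc : c < 2 ^ b) (he : e < 2) :
    e + 2 * (c / 2) ∈ ball b κ c := by
  refine mem_filter.2 ⟨mem_range.2 ?_, (hd_low he c).trans hκ⟩
  obtain ⟨a, rfl⟩ : ∃ a, b = a + 1 := ⟨b - 1, by omega⟩
  rw [pow_succ] at hc ⊢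
  omega

theorem ball_law {b κ c : ℕ} (hb : 1 ≤ b) (hκ : 1 ≤ κ) (hc : c < 2 ^ b) : Law (un (ball b κ c)) :=
  un_law ⟨_, ball_low hb hκ hc two_pos⟩

theorem ball_mix {b κ : ℕ} (hb : 1 ≤ b) (hκ : 1 ≤ κ) : ∃ l : ℕ, ∀ c < 2 ^ b, ∀ a,
    cm (2 ^ b) (un (ball b κ c) ^ l) a ≤ 2 / (2 ^ b : ℕ) := by
  have h : ∀ c : ℕ, ∃ l : ℕ, c < 2 ^ b → ∀ a,
      cm (2 ^ b) (un (ball b κ c) ^ l) a ≤ 2 / (2 ^ b : ℕ) := fun c => by
    by_cases hc : c < 2 ^ b
    · have a0 := ball_low hb hκ hc two_pos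
      have a1 := ball_low hb hκ hc one_lt_two
      have p : (0 : ℝ) < #(ball b κ c) := by exact_mod_cast card_pos.2 ⟨_, a0⟩
      obtain ⟨l, -, hl⟩ := Sp0.mix (Q := 2 ^ b) (c := 0 + 2 * (c / 2)) (by positivity)
        (ball_law hb hκ hc) (by rw [un_coeff, if_pos a0]; positivity)
        (by rw [un_coeff, zero_add, add_comm, if_pos a1]; positivity)
      exact ⟨l, fun _ => hl⟩
    · exact ⟨0, fun h => absurd h hc⟩
  choose l hl using h
  refine ⟨(range (2 ^ b)).sup l, fun c hc a => ?_⟩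
  obtain ⟨d, hd⟩ := Nat.exists_eq_add_of_le' (le_sup (f := l) (mem_range.2 hc))
  rw [hd, pow_add]
  exact Sp0.sp_mul ((ball_law hb hκ hc).pow d) (hl c hc) a

/-- multiplication by a unit -/
theorem cm_unit {Q r s : ℕ} (h : r * s ≡ 1 [MOD Q]) (G : ℝ[X]) (a : ℤ) :
    cm Q (expand ℝ s G) a = cm Q G (a * r) := by
  obtain ⟨m, hm⟩ := (Nat.modEq_iff_dvd.1 h)
  push_cast at hm
  conv_lhs => rw [Sp0.cm_eq, G.as_sum_support, map_sum, map_sum]
  simp only [expand_monomial, Sp0.cl_mon]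
  rw [cm, sum_filter]
  refine sum_congr rfl fun z _ => if_congr ⟨fun ⟨c, hc⟩ => ⟨c * r + z * m, ?_⟩,
    fun ⟨c, hc⟩ => ⟨c * s - a * m, ?_⟩⟩ rfl rfl
  · push_cast at hc
    linear_combination (r : ℤ) * hc + z * hm
  · push_cast
    linear_combination (s : ℤ) * hc - a * hm

variable (B : ℕ → ℝ[X]) (m : ℕ)

/-- the law of a group of `n` blocks -/
def grp (n i : ℕ) : ℝ[X] := ∏ j ∈ range n, expand ℝ (m ^ (i * n + j)) (B (i * n + j))

variable {B m}

theorem grp_law (hm : 0 < m) (h : ∀ j, Law (B j)) (n i : ℕ) : Law (grp B m n i) :=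
  Law.prod _ _ fun _ _ => (h _).expand (by positivity)

theorem grp_sp (hm : 0 < m) (h : ∀ j, Law (B j)) {π : ℝ} (hπ : ∀ j a, cm m (B j) a ≤ π) (n k : ℕ)
    (T : Finset ℕ) (hT : T ⊆ range k) (a : ℤ) :
    cm (m ^ (k * n)) (∏ i ∈ T, grp B m n i) a ≤ π ^ (n * #T) := by
  have e : ∏ i ∈ T, grp B m n i = ∏ i ∈ range k, expand ℝ ((m ^ n) ^ i)
      (if i ∈ T then ∏ j ∈ range n, expand ℝ (m ^ j) (B (i * n + j)) else 1) := by
    rw [← prod_subset hT fun i _ hi => by rw [if_neg hi, map_one]]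
    refine prod_congr rfl fun i hi => ?_
    rw [if_pos hi, map_prod, grp]
    refine prod_congr rfl fun j _ => ?_
    rw [expand_expand, ← pow_mul m, ← pow_add, mul_comm n]
  have := Sp0.sp_places (m := m ^ n) (by positivity) k
    (fun i => if i ∈ T then ∏ j ∈ range n, expand ℝ (m ^ j) (B (i * n + j)) else 1)
    (fun i => if i ∈ T then π ^ n else 1) (fun i => by
      split_ifs
      · exact Law.prod _ _ fun _ _ => (h _).expand (by positivity)
      · exact Law.one) (fun i a => by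
      split_ifs
      · simpa using Sp0.sp_places hm n (fun j => B (i * n + j)) (fun _ => π) (fun _ => h _)
          (fun _ => hπ _) a
      · exact Sp0.cm_le_one Law.one _ a) a
  rw [← e, ← pow_mul, prod_ite_mem, inter_eq_right.2 hT, prod_const, ← pow_mul,
    mul_comm n k] at this
  exact this

theorem grp_mix (hm : 0 < m) (h : ∀ j, Law (B j)) {π : ℝ} {l : ℕ}
    (hπ : ∀ j a, cm m (B j ^ l) a ≤ π) (n k : ℕ) (a : ℤ) :
    cm (m ^ (k * n)) ((∏ i ∈ range k, grp B m n i) ^ l) a ≤ π ^ (k * n) := by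
  simp only [grp]
  rw [Sp0.prod_rng fun j => expand ℝ (m ^ j) (B j), ← prod_pow]
  simp only [← map_pow]
  simpa using Sp0.sp_places hm (k * n) (fun j => B j ^ l) (fun _ => π) (fun j => (h j).pow l) hπ a

theorem supp_places {b κ w : ℕ}
    (h : ∀ j, ∀ c ∈ (B j).support, c < 2 ^ b ∧ hd c (w / (2 ^ b) ^ j % 2 ^ b) ≤ κ) (N y : ℕ)
    (hy : y ∈ (∏ j ∈ range N, expand ℝ ((2 ^ b) ^ j) (B j)).support) :
    y < (2 ^ b) ^ N ∧ hd y (w % (2 ^ b) ^ N) ≤ κ * N := by
  induction N generalizing y with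
  | zero =>
    have : y = 0 := by
      by_contra n
      simp [coeff_one, n] at hy
    simp [this, hd, s2, Nat.mod_one]
  | succ N ih =>
    rw [prod_range_succ, mem_support_iff, coeff_mul] at hy
    obtain ⟨x, hx, h0⟩ := exists_ne_zero_of_sum_ne_zero hy
    have e : x.1 + x.2 = y := HasAntidiagonal.mem_antidiagonal.1 hx
    obtain ⟨a1, a2⟩ := ih x.1 (mem_support_iff.2 (left_ne_zero_of_mul h0))
    have b1 := right_ne_zero_of_mul h0
    rw [coeff_expand (by positivity)] at b1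
    split_ifs at b1 with d
    · obtain ⟨c, hc⟩ := d
      rw [hc, Nat.mul_div_cancel_left _ (by positivity)] at b1
      obtain ⟨c1, c2⟩ := h N c (mem_support_iff.2 b1)
      rw [← e, hc]
      refine ⟨?_, ?_⟩
      · rw [pow_succ]
        nlinarith
      · have a3 : w % (2 ^ b) ^ N < (2 ^ b) ^ N := Nat.mod_lt _ (by positivity)
        rw [Nat.mod_pow_succ]
        rw [← pow_mul] at a1 a2 a3 c2 ⊢
        rw [hd_place a1 a3]
        linarith
    · exact absurd rfl b1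

theorem gen (b κ k μ : ℕ) (H δ : ℝ) (h1 : 1 ≤ κ) (hb : 1 ≤ b) (hk : 0 < k)
    (hm : 2 ^ μ ≤ b.choose κ) (hH : H * b = μ) (hδ : 1 ≤ δ * b) :
    ∃ l : ℕ, ∀ (n t w r s : ℕ), t = b * (k * n) → 0 < s → r * s ≡ 1 [MOD 2 ^ t] →
      ∃ (G : ℝ[X]) (F : Fin k → ℝ[X]), Prob G ∧ ∏ i, F i = expand ℝ s G ∧ Ok k l H δ t F ∧
      Sp t G (2 ^ (-(H * t * #(univ : Finset (Fin k)) / k))) ∧
      ∀ y ∈ G.support, y < 2 ^ t ∧ hd y (w % 2 ^ t) ≤ κ * (k * n) := by
  obtain ⟨l, hl⟩ := ball_mix hb h1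
  refine ⟨l, fun n t w r s ht hs hrs => ?_⟩
  obtain ⟨B, hB⟩ : ∃ B : ℕ → ℝ[X], B = fun j => un (ball b κ (w / (2 ^ b) ^ j % 2 ^ b)) := ⟨_, rfl⟩
  have p : 0 < 2 ^ b := by positivity
  have lt : ∀ j, w / (2 ^ b) ^ j % 2 ^ b < 2 ^ b := fun j => Nat.mod_lt _ p
  have b1 : ∀ j, Law (B j) := fun j => hB ▸ ball_law hb h1 (lt j)
  have b2 : ∀ j a, cm (2 ^ b) (B j) a ≤ 1 / 2 ^ μ := fun j a => by
    rw [hB]
    refine (un_cm (fun c hc => mem_range.1 (mem_filter.1 hc).1) a).trans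
      (one_div_le_one_div_of_le (by positivity) ?_)
    exact_mod_cast hm.trans (ball_card b κ (lt j))
  have b3 : ∀ j a, cm (2 ^ b) (B j ^ l) a ≤ 2 / (2 ^ b : ℕ) := fun j a => hB ▸ hl _ (lt j) a
  have et : 2 ^ t = (2 ^ b) ^ (k * n) := by rw [ht, pow_mul]
  have sp : ∀ T : Finset (Fin k), ∀ a, cm (2 ^ t) (∏ i ∈ T, grp B (2 ^ b) n i) a ≤
      2 ^ (-(H * t * #T / k)) := fun T a => by
    have := grp_sp p b1 b2 n k (T.map Fin.valEmbedding) (fun i hi => by
      obtain ⟨j, -, rfl⟩ := mem_map.1 hi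
      exact mem_range.2 j.2) a
    rw [prod_map, card_map, ← et] at this
    refine this.trans (le_of_eq ?_)
    have k0 : (k : ℝ) ≠ 0 := by positivity
    have e : H * t * #T / k = (μ * (n * #T) : ℕ) := by
      rw [ht]
      push_cast
      rw [← hH]
      field_simp
    rw [e, Real.rpow_neg zero_le_two, Real.rpow_natCast, pow_mul (2 : ℝ), ← inv_pow, one_div]
  refine ⟨∏ i : Fin k, grp B (2 ^ b) n i, fun i => expand ℝ s (grp B (2 ^ b) n i),
    Law.prod _ _ fun i _ => grp_law p b1 n i, (map_prod _ _ _).symm,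
    ⟨fun i => (grp_law p b1 n i).expand hs, fun T => ?_, ?_⟩, (SpA.sp_iff _ _ _).2 (sp univ), ?_⟩
  · rw [SpA.sp_iff, ← map_prod]
    intro a
    rw [cm_unit hrs]
    exact sp T _
  · rw [SpA.sp_iff, ← map_prod, ← map_pow,
      Fin.prod_univ_eq_prod_range (fun i => grp B (2 ^ b) n i)]
    intro a
    rw [cm_unit hrs, et]
    refine (grp_mix p b1 b3 n k _).trans ?_
    have e : ((2 : ℝ) / (2 ^ b : ℕ)) ^ (k * n) = 2 ^ ((1 - (b : ℝ)) * (k * n : ℕ)) := by
      rw [Real.rpow_mul zero_le_two, Real.rpow_natCast, Real.rpow_sub two_pos, Real.rpow_one,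
        Real.rpow_natCast, Nat.cast_pow, Nat.cast_ofNat]
    rw [e]
    refine Real.rpow_le_rpow_of_exponent_le one_le_two ?_
    rw [ht, Nat.cast_mul b, ← mul_assoc]
    exact mul_le_mul_of_nonneg_right (by linarith) (Nat.cast_nonneg _)
  · rw [Fin.prod_univ_eq_prod_range (fun i => grp B (2 ^ b) n i), et]
    intro y hy
    simp only [grp] at hy
    rw [Sp0.prod_rng fun j => expand ℝ ((2 ^ b) ^ j) (B j)] at hy
    refine supp_places (fun j c hc => ?_) _ y hy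
    rw [hB] at hc
    obtain ⟨c1, c2⟩ := mem_filter.1 (un_supp hc)
    exact ⟨mem_range.1 c1, c2⟩

end

end Pool.Agent.Lib.MP_f6c7cf_nt.HC
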