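import Pool.Agent.Lib.MP_f6c7cf_nt.HC.Dig

/-!
Every string of digits is close to a prime.
-/

namespace Pool.Agent.Lib.MP_f6c7cf_nt.HC

open Finset Filter Topology Polynomial
open Pool.Agent.Lib.MP_f6c7cf_nt.FO
open scoped Classical

theorem far (j : ℕ) {c : ℕ} (hc : c < 2 ^ j) (x T : ℝ) (hx : 1 ≤ x) :
    (#{u ∈ range (2 ^ j) | T ≤ hd u c} : ℝ) * x ^ T ≤ (1 + x) ^ j := by
  refine le_trans (mul_le_mul_of_nonneg_right (Nat.cast_le.2 ?_) (by positivity))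
    (Sp0.heavy j x T hx)
  refine card_le_card_of_injOn (fun u => u ^^^ c) (fun u hu => ?_) fun u _ v _ e => ?_
  · obtain ⟨h1, h2⟩ := mem_filter.1 (mem_coe.1 hu)
    exact mem_coe.2 (mem_filter.2 ⟨mem_range.2 (Nat.xor_lt_two_pow (mem_range.1 h1) hc), h2⟩)
  · exact Nat.xor_left_injective e

theorem tail {ε : ℝ} (hε : 0 < ε) (L j₀ w : ℕ) (hw : w < 2 ^ L) :
    ∑ u ∈ Ico (2 ^ j₀) (2 ^ L) with (1 / 2 + ε) * L + (L - j₀ : ℕ) ≤ hd u w, 1 / (u : ℝ) ≤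
      2 * (L * Real.exp (-(ε ^ 2 / 2)) ^ L) := by
  have hm : ∀ u ∈ ({u ∈ Ico (2 ^ j₀) (2 ^ L) | (1 / 2 + ε) * L + (L - j₀ : ℕ) ≤ hd u w} :
      Finset ℕ), Nat.log 2 u ∈ range L := fun u hu => by
    obtain ⟨a, b⟩ := mem_Ico.1 (mem_filter.1 hu).1
    have : 0 < 2 ^ j₀ := by positivity
    exact mem_range.2 (Nat.log_lt_of_lt_pow (by omega) b)
  rw [← sum_fiberwise_of_maps_to hm]
  refine (sum_le_card_nsmul _ _ (2 * Real.exp (-(ε ^ 2 / 2)) ^ L) fun j hj => ?_).trans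
    (le_of_eq (by rw [card_range, nsmul_eq_mul]; ring))
  have jL := mem_range.1 hj
  have x1 : 1 ≤ Real.exp ε := Real.one_le_exp hε.le
  have c0 : w % 2 ^ (j + 1) < 2 ^ (j + 1) := Nat.mod_lt _ (by positivity)
  have f := far (j + 1) c0 (Real.exp ε) ((1 / 2 + ε) * L) x1
  have k : ∀ u ∈ ({u ∈ ({u ∈ Ico (2 ^ j₀) (2 ^ L) | (1 / 2 + ε) * L + (L - j₀ : ℕ) ≤ hd u w} :
      Finset ℕ) | Nat.log 2 u = j} : Finset ℕ), 2 ^ j ≤ u ∧ u ∈ ({u ∈ range (2 ^ (j + 1)) |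
        (1 / 2 + ε) * L ≤ hd u (w % 2 ^ (j + 1))} : Finset ℕ) := fun u hu => by
    obtain ⟨h1, h2⟩ := mem_filter.1 hu
    obtain ⟨h3, h4⟩ := mem_filter.1 h1
    obtain ⟨a, b⟩ := mem_Ico.1 h3
    have : 0 < 2 ^ j₀ := by positivity
    have u1 : u < 2 ^ (j + 1) := h2 ▸ Nat.lt_pow_succ_log_self one_lt_two u
    have u2 : j₀ < j + 1 := (Nat.pow_lt_pow_iff_right one_lt_two).1 (a.trans_lt u1)
    refine ⟨h2 ▸ Nat.pow_log_le_self 2 (by omega), mem_filter.2 ⟨mem_range.2 u1, ?_⟩⟩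
    have e := hd_place u1 c0 0 (w / 2 ^ (j + 1))
    rw [mul_zero, add_zero, Nat.mod_add_div] at e
    have e2 : hd 0 (w / 2 ^ (j + 1)) ≤ L - (j + 1) := by
      rw [hd, Nat.zero_xor]
      refine s2_le _ ((Nat.div_lt_iff_lt_mul (by positivity)).2 ?_)
      rwa [← pow_add, Nat.sub_add_cancel jL]
    have e3 : hd u w ≤ hd u (w % 2 ^ (j + 1)) + (L - j₀) := by omega
    have e4 : (hd u w : ℝ) ≤ hd u (w % 2 ^ (j + 1)) + (L - j₀ : ℕ) := by exact_mod_cast e3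
    linarith
  refine (sum_le_card_nsmul _ _ (1 / 2 ^ j) fun u hu => one_div_le_one_div_of_le (by positivity)
    (by exact_mod_cast (k u hu).1)).trans ?_
  rw [nsmul_eq_mul]
  refine (mul_le_mul_of_nonneg_right (Nat.cast_le.2 (card_le_card fun u hu => (k u hu).2))
    (by positivity)).trans ?_
  obtain ⟨N, hN⟩ : ∃ N : ℝ, N = (#{u ∈ range (2 ^ (j + 1)) |
    (1 / 2 + ε) * L ≤ hd u (w % 2 ^ (j + 1))} : ℝ) := ⟨_, rfl⟩
  rw [← hN] at f ⊢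
  have e1 : Real.exp ε ^ ((1 / 2 + ε) * L) = Real.exp (ε * (1 / 2 + ε)) ^ L := by
    rw [← Real.exp_mul, ← Real.exp_nat_mul]
    congr 1
    ring
  have h1 : (1 + Real.exp ε) / 2 ≤ Real.exp (-(ε ^ 2 / 2)) * Real.exp (ε * (1 / 2 + ε)) := by
    rw [← Real.exp_add, div_le_iff₀' two_pos]
    refine (Tail.key ε).trans (mul_le_mul_of_nonneg_left (Real.exp_le_exp.2 ?_) (by norm_num))
    nlinarith [sq_nonneg ε]
  have h2 : ((1 + Real.exp ε) / 2) ^ (j + 1) ≤ ((1 + Real.exp ε) / 2) ^ L :=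
    pow_le_pow_right₀ (by linarith) jL
  have h3 := h2.trans (pow_le_pow_left₀ (by positivity) h1 L)
  have p : 0 < Real.exp (ε * (1 / 2 + ε)) ^ L := by positivity
  rw [e1] at f
  rw [div_pow, div_le_iff₀ (by positivity), mul_pow] at h3
  refine le_of_mul_le_mul_right ?_ p
  calc N * (1 / 2 ^ j) * Real.exp (ε * (1 / 2 + ε)) ^ L
      = N * Real.exp (ε * (1 / 2 + ε)) ^ L * (1 / 2 ^ j) := by ring
    _ ≤ _ * (1 / 2 ^ j) := mul_le_mul_of_nonneg_right (f.trans h3) (by positivity)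
    _ = _ := by
      rw [pow_succ (2 : ℝ) j]
      field_simp

theorem split {t r w p : ℕ} {G : ℝ[X]} {K : ℕ} (r2 : r < 2 ^ t) (r3 : hd r (w % 2 ^ t) ≤ 1)
    (g5 : ∀ y ∈ G.support, y < 2 ^ t ∧ hd y (w / 2 ^ t % 2 ^ t) ≤ K) (p2 : wr t r G p ≠ 0) :
    hd p w ≤ 1 + K + hd (p / qq t) (w / 2 ^ t / 2 ^ t) := by
  have Q0 : 0 < 2 ^ t := by positivity
  obtain ⟨z, hz⟩ : ({z ∈ G.support | r + 2 ^ t * z ≡ p [MOD qq t]} : Finset ℕ).Nonempty := by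
    rw [nonempty_iff_ne_empty]
    intro z
    apply p2
    rw [wr, z]
    simp
  obtain ⟨z1, z2⟩ := mem_filter.1 hz
  obtain ⟨z3, z4⟩ := g5 z z1
  have h5 : qq t = 2 ^ t * 2 ^ t := by rw [qq, two_mul, pow_add]
  have h6 : r + 2 ^ t * z < qq t := by
    rw [h5]
    have : 2 ^ t * (z + 1) ≤ 2 ^ t * 2 ^ t := Nat.mul_le_mul_left _ z3
    rw [mul_add, mul_one] at this
    omega
  have h7 : p % qq t = r + 2 ^ t * z := Eq.trans z2.symm (Nat.mod_eq_of_lt h6)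
  have h8 : r + 2 ^ t * (z + 2 ^ t * (p / qq t)) = p := by
    rw [mul_add, ← add_assoc, ← mul_assoc, ← h5, ← h7, Nat.mod_add_div]
  have h9 := hd_place r2 (Nat.mod_lt w Q0) (z + 2 ^ t * (p / qq t))
    (w / 2 ^ t % 2 ^ t + 2 ^ t * (w / 2 ^ t / 2 ^ t))
  rw [h8, hd_place z3 (Nat.mod_lt _ Q0), Nat.mod_add_div, Nat.mod_add_div] at h9
  omega

theorem wr_le {t r p e : ℕ} {G : ℝ[X]} {a : ℝ} (hG : Prob G) (hS : Sp t G (2 ^ a))
    (hp : 2 ^ e ≤ p) : wr t r G p ≤ 2 ^ (2 * t + a - e) := by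
  have q1 : (qq t : ℝ) = 2 ^ (2 * t : ℝ) := by
    rw [show (2 * t : ℝ) = ((2 * t : ℕ) : ℝ) by push_cast; ring, Real.rpow_natCast]
    simp [qq]
  have p1 : (2 : ℝ) ^ (e : ℝ) ≤ p := by
    rw [Real.rpow_natCast]
    exact_mod_cast hp
  rw [Real.rpow_sub two_pos, Real.rpow_add two_pos, ← q1]
  exact div_le_div₀ (by positivity) (mul_le_mul (by exact_mod_cast Nat.totient_le _)
    (pt hG hS (by positivity) p) (sum_nonneg fun _ _ => hG.1 _) (by positivity))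
    (by positivity) p1

theorem cover : ∃ N : ℕ, ∀ n ≥ N, ∀ w < 2 ^ n, (2 : ℝ) ^ (585 / 1000 * n : ℝ) ≤
    #{p ∈ range (2 ^ n) | p.Prime ∧ (2 : ℝ) ^ (99999 / 100000 * n : ℝ) < (p : ℕ) ∧
      (hd p w : ℝ) ≤ 2486 / 10000 * n} := by
  obtain ⟨l, hl⟩ := gen 20000 2780 1000 11618 (5809 / 10000) (1 / 10000) (by norm_num)
    (by norm_num) (by norm_num) Blk.big (by norm_num) (by norm_num)
  obtain ⟨h, Δ, c, hh, hΔ, hc, h3⟩ := mainS l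
  obtain ⟨y0, h3⟩ := eventually_atTop.1 h3
  have ρ1 : Real.exp (-((1 / 100000 : ℝ) ^ 2 / 2)) < 1 := Real.exp_lt_one_iff.2 (by norm_num)
  obtain ⟨L₀, hL₀⟩ := eventually_atTop.1 ((tendsto_self_mul_const_pow_of_lt_one
    (Real.exp_pos _).le ρ1).eventually (gt_mem_nhds (half_pos (half_pos hc))))
  obtain ⟨M, hM⟩ : ∃ M, M = 10000 * h + Δ := ⟨_, rfl⟩
  rw [← hM] at h3
  refine ⟨10000000000000 + M * ⌈y0⌉₊ + 3 * L₀ + 2000 * ⌈2 / c⌉₊, fun n hn w hw => ?_⟩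
  obtain ⟨m, hm⟩ : ∃ m, m = 467200 * n / 32000040000000 := ⟨_, rfl⟩
  obtain ⟨t, ht⟩ : ∃ t, t = 20000 * (1000 * m) := ⟨_, rfl⟩
  obtain ⟨e, he⟩ : ∃ e, e = 800000 * n / 800001 := ⟨_, rfl⟩
  obtain ⟨L, hL⟩ : ∃ L, n = L + 2 * t := ⟨n - 2 * t, by omega⟩
  obtain ⟨j₀, hj⟩ : ∃ j₀, e = j₀ + 2 * t := ⟨e - 2 * t, by omega⟩
  have ht1 : 1 ≤ t := by omega
  have M0 : (0 : ℝ) < M := by exact_mod_cast (by omega : 0 < M)
  have Q0 : 0 < 2 ^ t := by positivity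
  have Q1 : 1 < 2 ^ t := Nat.one_lt_two_pow (by omega)
  have w0 : w % 2 ^ t < 2 ^ t := Nat.mod_lt _ Q0
  obtain ⟨r, hr⟩ : ∃ r, r = 1 + 2 * (w % 2 ^ t / 2) := ⟨_, rfl⟩
  have r1 : Odd r := ⟨_, hr.trans (add_comm _ _)⟩
  obtain ⟨r2, r3⟩ := mem_filter.1 (hr ▸ ball_low ht1 le_rfl w0 one_lt_two)
  rw [mem_range] at r2
  obtain ⟨s, -, hs⟩ := Nat.exists_mul_mod_eq_one_of_coprime
    ((Nat.coprime_two_right.2 r1).pow_right t) Q1
  have s0 : 0 < s := Nat.pos_of_ne_zero fun z => by simp [z] at hs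
  have s1 : r * s ≡ 1 [MOD 2 ^ t] := hs.trans (Nat.mod_eq_of_lt Q1).symm
  obtain ⟨G, F, g1, g2, g3, g4, g5⟩ := hl m t (w / 2 ^ t) r s ht s0 s1
  obtain ⟨y, hy⟩ : ∃ y : ℝ, y = 2 ^ ((n : ℝ) / M) := ⟨_, rfl⟩
  have hy0 : 0 ≤ y := by rw [hy]; positivity
  have hp : ∀ a : ℕ, y ^ a = 2 ^ ((a : ℝ) * n / M) := fun a => by
    rw [hy, ← Real.rpow_natCast, ← Real.rpow_mul (by norm_num)]
    refine congrArg _ ?_
    field_simp
  have hy1 : y0 ≤ y := by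
    have e1 : ((M * ⌈y0⌉₊ : ℕ) : ℝ) ≤ n := Nat.cast_le.2 (by omega)
    have e2 : ((⌈y0⌉₊ : ℕ) : ℝ) ≤ (n : ℝ) / M := by
      rw [le_div_iff₀' M0]
      exact_mod_cast e1
    have e3 : ((⌈y0⌉₊ : ℕ) : ℝ) ≤ 2 ^ ((⌈y0⌉₊ : ℕ) : ℝ) := by
      rw [Real.rpow_natCast]
      exact_mod_cast (Nat.lt_two_pow_self).le
    rw [hy]
    exact (Nat.le_ceil y0).trans (e3.trans (Real.rpow_le_rpow_of_exponent_le (by norm_num) e2))
  have up : ∀ a b : ℕ, 800001 * b ≤ 80 * a * n → ((2 ^ b : ℕ) : ℝ) ≤ y ^ (a * h) :=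
    fun a b hab => by
    rw [hp, Nat.cast_pow, Nat.cast_ofNat, ← Real.rpow_natCast]
    refine Real.rpow_le_rpow_of_exponent_le one_le_two ?_
    rw [le_div_iff₀' M0]
    have a1 := Nat.mul_le_mul_right b (by omega : 80 * M ≤ 800001 * h)
    have a2 := Nat.mul_le_mul_left h hab
    have a3 : M * b ≤ a * h * n := by
      refine Nat.le_of_mul_le_mul_left (c := 80) ?_ (by norm_num)
      calc 80 * (M * b) = 80 * M * b := (mul_assoc _ _ _).symm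
        _ ≤ h * (800001 * b) := a1.trans (le_of_eq (by ring))
        _ ≤ _ := a2.trans (le_of_eq (by ring))
    exact_mod_cast a3
  have key := h3 y hy1 t F (wr t r G) ht1 g3 (up 5840 _ (by omega)) (g2 ▸ wr_ex ht1 r1 s1 g1)
    (wr_lin ht1 r1 g1 g4)
  have pp : ∀ p ∈ PP y (10000 * h) M, p.Prime ∧ p < 2 ^ n ∧ 2 ^ e ≤ p ∧
      p / qq t ∈ Ico (2 ^ j₀) (2 ^ L) := fun p hp' => by
    obtain ⟨a1, a2, a3⟩ := (box.mem_PP y _ _ p hy0).1 hp'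
    have b1 : 2 ^ e ≤ p := by exact_mod_cast (up 10000 e (by omega)).trans a2.le
    have b2 : p ≤ 2 ^ n := by
      rw [hp, mul_div_cancel_left₀ _ M0.ne', Real.rpow_natCast] at a3
      exact_mod_cast a3
    have b3 : p < 2 ^ n := lt_of_le_of_ne b2 fun z => by
      have := Nat.Prime.eq_one_of_pow (z ▸ a1)
      omega
    refine ⟨a1, b3, b1, mem_Ico.2 ⟨?_, ?_⟩⟩
    · rwa [Nat.le_div_iff_mul_le (by positivity), ← pow_add, ← hj]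
    · rwa [Nat.div_lt_iff_lt_mul (by positivity), ← pow_add, ← hL]
  have w2 : w / 2 ^ t / 2 ^ t < 2 ^ L := by
    rwa [Nat.div_div_eq_div_mul, Nat.div_lt_iff_lt_mul (by positivity), ← pow_add, ← pow_add,
      ← two_mul, ← hL]
  have k2 : (n : ℝ) = L + 40000000 * m := by exact_mod_cast (by omega : n = L + 40000000 * m)
  have k3 : (800001 : ℝ) * (L - j₀ : ℕ) ≤ n + 800001 := by
    exact_mod_cast (by omega : 800001 * (L - j₀) ≤ n + 800001)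
  have k4 : (467200 : ℝ) * n ≤ 32000040000000 * (m + 1) := by
    exact_mod_cast (by omega : 467200 * n ≤ 32000040000000 * (m + 1))
  have k5 : (10000000000000 : ℝ) + 2000 * ⌈2 / c⌉₊ ≤ n := by
    exact_mod_cast (by omega : 10000000000000 + 2000 * ⌈2 / c⌉₊ ≤ n)
  have k6 : (800000 : ℝ) * n ≤ 800001 * (e + 1) := by
    exact_mod_cast (by omega : 800000 * n ≤ 800001 * (e + 1))
  have k7 : (10000 : ℝ) * t ≤ 2920 * n := by exact_mod_cast (by omega : 10000 * t ≤ 2920 * n)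
  have k8 : (0 : ℝ) ≤ ⌈2 / c⌉₊ := Nat.cast_nonneg _
  obtain ⟨A, hA⟩ : ∃ A : Finset ℕ, A = {p ∈ range (2 ^ n) | p.Prime ∧
    (2 : ℝ) ^ (99999 / 100000 * n : ℝ) < (p : ℕ) ∧ (hd p w : ℝ) ≤ 2486 / 10000 * n} := ⟨_, rfl⟩
  rw [← hA]
  rw [← sum_filter_add_sum_filter_not _ fun p => (1 / 2 + 1 / 100000 : ℝ) * L + (L - j₀ : ℕ) ≤
    hd (p / qq t) (w / 2 ^ t / 2 ^ t), ← sum_filter_ne_zero {p ∈ PP y (10000 * h) M | ¬_}] at key
  have a1 := (wr_mass t r g1 {p ∈ PP y (10000 * h) M | (1 / 2 + 1 / 100000 : ℝ) * L +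
      (L - j₀ : ℕ) ≤ hd (p / qq t) (w / 2 ^ t / 2 ^ t)} _
    (fun z => absurd (mem_Ico.1 (mem_filter.1 z).1).1 (not_le.2 (by positivity)))
    fun p hp' => mem_filter.2 ⟨(pp p (mem_filter.1 hp').1).2.2.2, (mem_filter.1 hp').2⟩).trans
    (tail (ε := 1 / 100000) (by norm_num) L j₀ _ w2)
  have a2 := hL₀ L (by omega)
  obtain ⟨S, hS⟩ : ∃ S : Finset ℕ, S = {p ∈ ({p ∈ PP y (10000 * h) M |
    ¬(1 / 2 + 1 / 100000 : ℝ) * L + (L - j₀ : ℕ) ≤ hd (p / qq t) (w / 2 ^ t / 2 ^ t)} : Finset ℕ) |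
      wr t r G p ≠ 0} := ⟨_, rfl⟩
  rw [← hS] at key
  have a3 : ∀ p ∈ S, p ∈ A ∧ 2 ^ e ≤ p := fun p hp' => by
    rw [hS, mem_filter, mem_filter] at hp'
    obtain ⟨⟨p1, p3⟩, p2⟩ := hp'
    obtain ⟨b1, b2, b3, -⟩ := pp p p1
    have h10 := split r2 r3 g5 p2
    have k1 : (hd p w : ℝ) ≤ 1 + 2780 * (1000 * m) + hd (p / qq t) (w / 2 ^ t / 2 ^ t) := by
      exact_mod_cast h10
    have k9 : (hd p w : ℝ) ≤ 2486 / 10000 * n := by linarith [not_le.1 p3]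
    rw [hA]
    refine ⟨mem_filter.2 ⟨mem_range.2 b2, b1, ?_, k9⟩, b3⟩
    have k10 : 99999 / 100000 * (n : ℝ) < (e : ℝ) := by linarith
    refine lt_of_lt_of_le (Real.rpow_lt_rpow_of_exponent_lt one_lt_two k10) ?_
    rw [Real.rpow_natCast]
    exact_mod_cast b3
  have a4 := sum_le_card_nsmul S _ _ fun p hp' => wr_le (r := r) g1 g4 (a3 p hp').2
  rw [nsmul_eq_mul, card_univ, Fintype.card_fin] at a4
  obtain ⟨x, hx⟩ : ∃ x : ℝ, x = 2 * t + -(5809 / 10000 * (t : ℝ) * (1000 : ℕ) / (1000 : ℕ)) - e :=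
    ⟨_, rfl⟩
  rw [← hx] at a4
  have a5 : (#S : ℝ) ≤ #A := Nat.cast_le.2 (card_le_card fun p hp' => (a3 p hp').1)
  have x0 : (0 : ℝ) < 2 ^ x := by positivity
  have a6 : c / 2 ≤ #A * 2 ^ x := by
    have := mul_le_mul_of_nonneg_right a5 x0.le
    linarith
  refine le_of_mul_le_mul_right (le_trans ?_ a6) x0
  have a7 : 2 / c ≤ 2 ^ ((⌈2 / c⌉₊ : ℕ) : ℝ) := by
    rw [Real.rpow_natCast]
    exact (Nat.le_ceil _).trans (by exact_mod_cast (Nat.lt_two_pow_self).le)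
  rw [← Real.rpow_add two_pos]
  refine (Real.rpow_le_rpow_of_exponent_le one_le_two (z := -((⌈2 / c⌉₊ : ℕ) : ℝ)) ?_).trans ?_
  · rw [hx]
    push_cast
    linarith
  · rw [Real.rpow_neg zero_le_two, ← inv_div 2 c]
    exact inv_anti₀ (by positivity) a7

end Pool.Agent.Lib.MP_f6c7cf_nt.HC
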