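import Pool.Agent.Lib.MP_f6c7cf_nt.HC.Core
import Pool.Agent.Lib.MP_f6c7cf_nt.FO.All

/-!
The weight of the residues `r + 2 ^ t * z`.
-/

namespace Pool.Agent.Lib.MP_f6c7cf_nt.HC

open Finset Filter Topology Polynomial
open Pool.Agent.Lib.MP_f6c7cf_nt.FO
open scoped Classical ComplexConjugate

theorem mainS : MainS :=
  HC.main bas box cL cC (HC.visS box (HC.t1 bas tc cL (ea bas cM (rv bas (jn bas)))))
    (HC.t3 bas box (mb bas box cM) (hb bas box (hl bas tc box cL cU smS)) pb) cert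

/-- the weight -/
noncomputable def wr (t r : ℕ) (G : ℝ[X]) (n : ℕ) : ℝ :=
  (Nat.totient (qq t) : ℝ) * (∑ z ∈ G.support with r + 2 ^ t * z ≡ n [MOD qq t], G.coeff z) / n

theorem wr_nonneg (t r : ℕ) {G : ℝ[X]} (h : Prob G) (n : ℕ) : 0 ≤ wr t r G n :=
  div_nonneg (mul_nonneg (Nat.cast_nonneg _) (sum_nonneg fun _ _ => h.1 _)) (Nat.cast_nonneg _)

theorem odd_res {t r : ℕ} (ht : 1 ≤ t) (hr : Odd r) (z : ℕ) : Odd (r + 2 ^ t * z) :=
  hr.add_even (((Nat.even_pow' (by omega)).2 even_two).mul_right z)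

theorem tw_eq {t r s : ℕ} (h : r * s ≡ 1 [MOD 2 ^ t]) (G : ℝ[X]) (χ : Ch t) :
    ∑ z ∈ G.support, (G.coeff z : ℂ) * χ ((r + 2 ^ t * z : ℕ) : ZMod (qq t)) =
      χ r * WW (expand ℝ s G) χ := by
  rw [WW, expand_aeval, aeval_def, eval₂_eq_sum, sum_def, mul_sum]
  refine sum_congr rfl fun z _ => ?_
  have e : ((r + 2 ^ t * z : ℕ) : ZMod (qq t)) = r * ((1 + 2 ^ t * (s * z) : ℕ) : ZMod (qq t)) := by
    rw [← Nat.cast_mul, ZMod.natCast_eq_natCast_iff, mul_add, mul_one]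
    refine Nat.ModEq.add_left _ ?_
    have := (h.symm.mul_right z).mul_left' (c := 2 ^ t)
    rw [← pow_add, ← two_mul, one_mul] at this
    rwa [show r * (2 ^ t * (s * z)) = 2 ^ t * (r * s * z) by ring]
  rw [e, map_mul, BasP.chi_pow, pow_mul, mul_left_comm]
  rfl

theorem wr_eq {t r s : ℕ} (ht : 1 ≤ t) (hr : Odd r) (h : r * s ≡ 1 [MOD 2 ^ t]) (G : ℝ[X])
    (n : ℕ) : (wr t r G n : ℂ) = ∑ χ : Ch t, conj (χ r * WW (expand ℝ s G) χ) * χ n / (n : ℂ) := by
  rw [← sum_div]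
  simp only [← tw_eq h, map_sum, map_mul, Complex.conj_ofReal, sum_mul, mul_assoc]
  rw [sum_comm]
  simp only [← mul_sum]
  have e : ∀ z, ∑ χ : Ch t, conj (χ ((r + 2 ^ t * z : ℕ) : ZMod (qq t))) * χ n =
      if r + 2 ^ t * z ≡ n [MOD qq t] then ((qq t).totient : ℂ) else 0 := fun z => by
    rw [BasP.sum_conj (BasP.unit_odd t (odd_res ht hr z))]
    exact if_congr (ZMod.natCast_eq_natCast_iff _ _ _) rfl rfl
  simp only [e]
  rw [wr, sum_filter]
  push_cast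
  rw [mul_sum]
  congr 1
  refine sum_congr rfl fun y _ => ?_
  split_ifs
  · ring
  · simp

theorem wr_ex {t r s : ℕ} (ht : 1 ≤ t) (hr : Odd r) (h : r * s ≡ 1 [MOD 2 ^ t]) {G : ℝ[X]}
    (hG : Prob G) : Ex t (expand ℝ s G) (wr t r G) := by
  refine ⟨wr_nonneg t r hG, fun ι S v hv => ?_⟩
  have e1 : ((∑ i ∈ S, wr t r G (v i) : ℝ) : ℂ) =
      ∑ χ : Ch t, conj (χ r * WW (expand ℝ s G) χ) * hat S v χ := by
    rw [Complex.ofReal_sum]
    simp only [wr_eq ht hr h, hat, mul_sum, mul_div_assoc]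
    exact sum_comm
  have e2 : (1 : Ch t) r * WW (expand ℝ s G) (1 : Ch t) = 1 := by
    rw [← tw_eq h, ← Complex.ofReal_one, ← BasP.sum_coeff G hG, Complex.ofReal_sum]
    exact sum_congr rfl fun z _ => by
      rw [MulChar.one_apply (BasP.unit_odd t (odd_res ht hr z)), mul_one]
  have e3 : hat S v (1 : Ch t) = (D0 S v : ℝ) := by
    rw [hat, D0, Complex.ofReal_sum]
    refine sum_congr rfl fun i hi => ?_
    rw [MulChar.one_apply (BasP.unit_odd t (hv i hi))]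
    push_cast
    rfl
  have e4 : ((∑ i ∈ S, wr t r G (v i) - D0 S v : ℝ) : ℂ) =
      ∑ χ ∈ nz t, conj (χ r * WW (expand ℝ s G) χ) * hat S v χ := by
    rw [Complex.ofReal_sub, e1, ← add_sum_erase _ _ (mem_univ (1 : Ch t)), e2, e3, map_one, one_mul,
      add_sub_cancel_left]
    rfl
  rw [← Real.norm_eq_abs, ← Complex.norm_real, e4]
  refine (norm_sum_le _ _).trans (le_of_eq (sum_congr rfl fun χ _ => ?_))
  rw [norm_mul, Complex.norm_conj, norm_mul, BasP.norm_chi t r χ hr, one_mul]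

theorem pt {t r : ℕ} {F : ℝ[X]} {π : ℝ} (hF : Prob F) (hS : Sp t F π) (h0 : 0 ≤ π) (n : ℕ) :
    ∑ y ∈ F.support with r + 2 ^ t * y ≡ n [MOD qq t], F.coeff y ≤ π := by
  rcases ({y ∈ F.support | r + 2 ^ t * y ≡ n [MOD qq t]}).eq_empty_or_nonempty with h | ⟨z, hz⟩
  · rw [h, sum_empty]; exact h0
  · refine le_trans (sum_le_sum_of_subset_of_nonneg (fun y hy => ?_) fun y _ _ => hF.1 y) (hS z)
    rw [mem_filter] at hy hz ⊢
    refine ⟨hy.1, ?_⟩
    have a := Nat.ModEq.add_left_cancel' r (hy.2.trans hz.2.symm)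
    rw [qq, two_mul, pow_add] at a
    exact Nat.ModEq.mul_left_cancel' (by positivity) a

theorem cls {t d a : ℕ} (ht : 1 ≤ t) (hd : Odd d) (ha : Odd a) : ∃ c : ℕ, ∀ n : ℕ,
    ((Odd n ∧ d ∣ n) ∧ a ≡ n [MOD qq t]) ↔ n ≡ c [MOD qq t * d] := by
  have co : Nat.Coprime (qq t) d := (Nat.coprime_two_left.2 hd).pow_left _
  obtain ⟨c, c1, c2⟩ := Nat.chineseRemainder co a 0
  refine ⟨c, fun n => ?_⟩
  rw [← Nat.modEq_and_modEq_iff_modEq_mul co]
  constructor
  · rintro ⟨⟨_, a⟩, b⟩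
    exact ⟨b.symm.trans c1.symm, ((Nat.modEq_zero_iff_dvd).2 a).trans c2.symm⟩
  · rintro ⟨a, b⟩
    have e := (a.trans c1).of_dvd (dvd_pow_self 2 (by omega : 2 * t ≠ 0))
    refine ⟨⟨?_, (Nat.modEq_zero_iff_dvd).1 (b.trans c2)⟩, (a.trans c1).symm⟩
    rw [Nat.odd_iff, show n % 2 = _ from e, ← Nat.odd_iff]
    exact ha

theorem wr_lin {t r : ℕ} (ht : 1 ≤ t) (hr : Odd r) {F : ℝ[X]} {π : ℝ} (hF : Prob F)
    (hS : Sp t F π) : Lin (qq t * (qq t * π)) (wr t r F) := by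
  have g := BasP.sp_ge t F π hF hS
  have Q0 : (0 : ℝ) < 2 ^ t := by positivity
  have π0 : 0 < π := by nlinarith
  have q1 : (2 : ℝ) ^ t ≤ qq t := by
    push_cast
    exact pow_le_pow_right₀ one_le_two (by omega)
  have q2 : (1 : ℝ) ≤ qq t := (one_le_pow₀ one_le_two).trans q1
  have e := Lin.tot ht
  have φ0 : (0 : ℝ) ≤ Nat.totient (qq t) := Nat.cast_nonneg _
  refine ⟨wr_nonneg t r hF, qq t, qq t * π, q2, by nlinarith, le_rfl, fun n => ?_,
    fun d P₁ P₂ hd h0 h12 => ?_⟩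
  · refine div_le_div_of_nonneg_right (mul_le_mul (by linarith) (pt hF hS π0.le n)
      (sum_nonneg fun y _ => hF.1 y) (by linarith)) (Nat.cast_nonneg _)
  · have d0 : (0 : ℝ) < d := by exact_mod_cast hd.pos
    have e1 : ∑ n ∈ iv P₁ P₂ with Odd n ∧ d ∣ n, wr t r F n = ∑ y ∈ F.support,
        Nat.totient (qq t) * F.coeff y * ∑ n ∈ iv P₁ P₂ with
          (Odd n ∧ d ∣ n) ∧ r + 2 ^ t * y ≡ n [MOD qq t], 1 / (n : ℝ) := by
      simp only [wr, mul_sum, sum_div, sum_filter]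
      have z : ∀ (p : Prop) [Decidable p] (f : ℕ → ℝ), (if p then ∑ y ∈ F.support, f y else 0) =
          ∑ y ∈ F.support, if p then f y else 0 := fun p _ f => by split_ifs <;> simp
      simp only [z]
      rw [sum_comm]
      refine sum_congr rfl fun y _ => sum_congr rfl fun n _ => ?_
      by_cases a : Odd n ∧ d ∣ n <;> by_cases b : r + 2 ^ t * y ≡ n [MOD qq t] <;>
        simp only [a, b, and_self, and_true, and_false, if_true, if_false, mul_zero, zero_div]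
      ring
    have e2 : Real.log (P₂ / P₁) / (2 * d) = ∑ y ∈ F.support,
        Nat.totient (qq t) * F.coeff y * (Real.log (P₂ / P₁) / (qq t * d : ℕ)) := by
      rw [← sum_mul, ← mul_sum, BasP.sum_coeff F hF, Nat.cast_mul, ← e]
      have : (Nat.totient (qq t) : ℝ) ≠ 0 := by linarith
      field_simp
    rw [e1, e2, ← sum_sub_distrib]
    refine (abs_sum_le_sum_abs _ _).trans ((sum_le_sum (g := fun y =>
      Nat.totient (qq t) * F.coeff y * (1 / P₁)) fun y _ => ?_).trans ?_)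
    · obtain ⟨c, hc⟩ := cls ht hd (odd_res ht hr y)
      have n0 := mul_nonneg φ0 (hF.1 y)
      rw [← mul_sub, abs_mul, abs_of_nonneg n0]
      refine mul_le_mul_of_nonneg_left ?_ n0
      simp only [hc]
      exact Lin.one _ c P₁ P₂ (Nat.mul_pos (by positivity) hd.pos) h0 h12
    · rw [← sum_mul, ← mul_sum, BasP.sum_coeff F hF, mul_one, mul_one_div]
      exact div_le_div_of_nonneg_right (by linarith) h0.le

/-- the mass of the numbers whose upper part lies in a given set -/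
theorem wr_mass (t r : ℕ) {G : ℝ[X]} (hG : Prob G) (S H : Finset ℕ) (h0 : 0 ∉ H)
    (hS : ∀ p ∈ S, p / qq t ∈ H) : ∑ p ∈ S, wr t r G p ≤ ∑ u ∈ H, 1 / (u : ℝ) := by
  have q0 : 0 < qq t := by positivity
  have e : ∑ p ∈ S, wr t r G p = ∑ z ∈ G.support, G.coeff z *
      ∑ p ∈ S with r + 2 ^ t * z ≡ p [MOD qq t], (Nat.totient (qq t) : ℝ) / p := by
    simp only [wr, mul_sum, sum_div, sum_filter]
    rw [sum_comm]
    refine sum_congr rfl fun z _ => sum_congr rfl fun p _ => ?_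
    split_ifs
    · ring
    · simp
  rw [e]
  refine (sum_le_sum (g := fun z => G.coeff z * ∑ u ∈ H, 1 / (u : ℝ)) fun z _ =>
    mul_le_mul_of_nonneg_left ?_ (hG.1 z)).trans
    (le_of_eq (by rw [← sum_mul, BasP.sum_coeff G hG, one_mul]))
  have inj : Set.InjOn (fun p => p / qq t)
      ({p ∈ S | r + 2 ^ t * z ≡ p [MOD qq t]} : Finset ℕ) := fun p hp p' hp' e => by
    have a : p % qq t = p' % qq t :=
      (mem_filter.1 (mem_coe.1 hp)).2.symm.trans (mem_filter.1 (mem_coe.1 hp')).2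
    have b : p / qq t = p' / qq t := e
    rw [← Nat.div_add_mod p (qq t), ← Nat.div_add_mod p' (qq t), a, b]
  refine le_trans (sum_le_sum (g := fun p => 1 / ((p / qq t : ℕ) : ℝ)) fun p hp => ?_) ?_
  · have u0 : 0 < p / qq t := Nat.pos_of_ne_zero fun z => h0 (z ▸ hS p (mem_filter.1 hp).1)
    have u1 : (0 : ℝ) < (p / qq t : ℕ) := by exact_mod_cast u0
    have u2 : qq t * (p / qq t) ≤ p := Nat.mul_div_le _ _
    have p0 : (0 : ℝ) < p := by exact_mod_cast (Nat.mul_pos q0 u0).trans_le u2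
    rw [div_le_div_iff₀ p0 u1, one_mul]
    exact_mod_cast (Nat.mul_le_mul_right _ (Nat.totient_le _)).trans u2
  · rw [← sum_image (f := fun u : ℕ => 1 / (u : ℝ)) inj]
    refine sum_le_sum_of_subset_of_nonneg (fun u hu => ?_) fun _ _ _ => by positivity
    obtain ⟨p, hp, rfl⟩ := mem_image.1 hu
    exact hS p (mem_filter.1 hp).1

end Pool.Agent.Lib.MP_f6c7cf_nt.HC
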